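import Pool.Agent.Q127.Cost.Fiber

namespace Q127.Cost

open Finset

/-- kernel of the action on the orbits of the points of `B`. -/
def Ker {Γ V : Type*} [Group Γ] [MulAction Γ V] (B : Finset V) (g : Γ) : Prop :=
  ∀ γ : Γ, ∀ b ∈ B, g • γ • b = γ • b

theorem Ker.conj {Γ V : Type*} [Group Γ] [MulAction Γ V] {B : Finset V} {g γ : Γ}
    (h : Ker B (γ⁻¹ * g * γ)) : Ker B g := by
  intro δ b hb
  have := h (γ⁻¹ * δ) b hb
  rw [mul_smul, mul_smul, mul_smul γ⁻¹ δ, smul_inv_smul] at this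
  exact (MulAction.injective γ⁻¹) this

theorem Ker.eq {Γ V : Type*} [Group Γ] [MulAction Γ V] {B : Finset V} {g g' : Γ}
    (hbase : ∀ g : Γ, (∀ b ∈ B, g • b = b) → Ker B g)
    (h : ∀ b ∈ B, g • b = g' • b) (γ : Γ) (b : V) (hb : b ∈ B) :
    g • γ • b = g' • γ • b := by
  have h1 : ∀ b ∈ B, (g⁻¹ * g') • b = b := by
    intro b hb
    rw [mul_smul, ← h b hb, inv_smul_smul]
  have h2 := hbase _ h1 γ b hb
  rw [mul_smul] at h2
  rw [← h2, smul_inv_smul, h2]

theorem exists_moved {Γ V : Type*} [Group Γ] [Fintype Γ] [DecidableEq Γ] [MulAction Γ V]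
    [DecidableEq V] (B : Finset V)
    (hbase : ∀ g : Γ, (∀ b ∈ B, g • b = b) → Ker B g)
    (g : Γ) (hg : ¬ Ker B g) :
    ∃ b ∈ B, B.card * (univ.filter (fun γ : Γ => g • γ • b = γ • b)).card ≤
      (B.card - 1) * Fintype.card Γ := by
  by_contra hcon
  push Not at hcon
  have hBne : B.Nonempty := by
    rw [Finset.nonempty_iff_ne_empty]
    rintro rfl
    apply hg
    intro γ b hb
    exact absurd hb (by simp)
  have hn : 0 < B.card := hBne.card_pos
  have h1 : (univ : Finset Γ) ⊆ B.biUnion (fun b => univ.filter (fun γ : Γ => g • γ • b ≠ γ • b)) := by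
    intro γ _
    rw [Finset.mem_biUnion]
    by_contra hno
    push Not at hno
    apply hg
    apply Ker.conj (γ := γ)
    apply hbase
    intro b hb
    have := hno b hb
    simp only [Finset.mem_filter, Finset.mem_univ, true_and, not_not] at this
    rw [mul_smul, mul_smul, this, inv_smul_smul]
  have h2 : Fintype.card Γ ≤ ∑ b ∈ B, (univ.filter (fun γ : Γ => g • γ • b ≠ γ • b)).card := by
    calc Fintype.card Γ = (univ : Finset Γ).card := rfl
      _ ≤ _ := Finset.card_le_card h1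
      _ ≤ _ := Finset.card_biUnion_le
  have h3 : ∀ b ∈ B, B.card * (univ.filter (fun γ : Γ => g • γ • b ≠ γ • b)).card <
      Fintype.card Γ := by
    intro b hb
    have h4 := hcon b hb
    have h5 : (univ.filter (fun γ : Γ => g • γ • b = γ • b)).card +
        (univ.filter (fun γ : Γ => g • γ • b ≠ γ • b)).card = Fintype.card Γ := by
      have := Finset.card_filter_add_card_filter_not (s := (univ : Finset Γ))
        (fun γ : Γ => g • γ • b = γ • b)
      simpa using this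
    have h6 : (B.card - 1) * Fintype.card Γ + Fintype.card Γ = B.card * Fintype.card Γ := by
      obtain ⟨k, hk⟩ : ∃ k, B.card = k + 1 := ⟨B.card - 1, by omega⟩
      rw [hk]; simp; ring
    have h7 : B.card * (univ.filter (fun γ : Γ => g • γ • b = γ • b)).card +
        B.card * (univ.filter (fun γ : Γ => g • γ • b ≠ γ • b)).card =
        B.card * Fintype.card Γ := by
      rw [← mul_add, h5]
    omega
  have h4 : B.card * Fintype.card Γ < B.card * Fintype.card Γ := by
    calc B.card * Fintype.card Γ ≤ B.card *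
          ∑ b ∈ B, (univ.filter (fun γ : Γ => g • γ • b ≠ γ • b)).card :=
          Nat.mul_le_mul_left _ h2
      _ = ∑ b ∈ B, B.card * (univ.filter (fun γ : Γ => g • γ • b ≠ γ • b)).card := by
          rw [Finset.mul_sum]
      _ < ∑ b ∈ B, Fintype.card Γ := Finset.sum_lt_sum_of_nonempty hBne h3
      _ = B.card * Fintype.card Γ := by simp
  exact lt_irrefl _ h4

section

variable {Γ V : Type*} [Group Γ] [Fintype Γ] [DecidableEq Γ] [MulAction Γ V] [DecidableEq V]

abbrev Idx (B : Finset V) (r : ℕ) := Fin (B.card + 1) × Fin r × B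

abbrev Lbl (B Z : Finset V) (r : ℕ) := Z ⊕ Idx B r

/-- the point with a given label -/
def pt (B Z : Finset V) (r : ℕ) (ω : Idx B r → Γ) : Lbl B Z r → V
  | Sum.inl z => z.1
  | Sum.inr i => ω i • i.2.2.1

theorem exists_group (B Z : Finset V) (r : ℕ) (φ : B → Lbl B Z r) :
    ∃ q : Fin (B.card + 1), ∀ b j b', φ b ≠ Sum.inr (q, j, b') := by
  by_contra hcon
  push Not at hcon
  choose f j b' h using hcon
  have hinj : Function.Injective f := by
    intro k l hkl
    have h1 := h k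
    have h2 := h l
    rw [hkl, h2] at h1
    have := Sum.inr_injective h1
    exact (congrArg Prod.fst this).symm
  have := Fintype.card_le_of_injective f hinj
  simp at this

noncomputable def grp (B Z : Finset V) (r : ℕ) (φ : B → Lbl B Z r) : Fin (B.card + 1) :=
  (exists_group B Z r φ).choose

theorem grp_spec (B Z : Finset V) (r : ℕ) (φ : B → Lbl B Z r) (b : B) (j : Fin r) (b' : B) :
    φ b ≠ Sum.inr (grp B Z r φ, j, b') :=
  (exists_group B Z r φ).choose_spec b j b'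

omit [Fintype Γ] [DecidableEq Γ] in
theorem pt_congr (B Z : Finset V) (r : ℕ) (φ : B → Lbl B Z r) (ω ω' : Idx B r → Γ)
    (h : ∀ i : Idx B r, i.1 ≠ grp B Z r φ → ω' i = ω i) (b : B) :
    pt B Z r ω' (φ b) = pt B Z r ω (φ b) := by
  rcases hφ : φ b with z | i
  · rfl
  · have : i.1 ≠ grp B Z r φ := by
      intro hi
      apply grp_spec B Z r φ b i.2.1 i.2.2
      rw [hφ, ← hi]
    simp only [pt]
    rw [h i this]

open Classical in
noncomputable def EvA (B Z : Finset V) (r : ℕ) (p : (B → Lbl B Z r) × B) :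
    Finset (Idx B r → Γ) :=
  univ.filter (fun ω => ∃ g : Γ, (∀ b' : B, g • b'.1 = pt B Z r ω (p.1 b')) ∧
    B.card * (univ.filter (fun γ : Γ => g • γ • p.2.1 = γ • p.2.1)).card ≤
      (B.card - 1) * Fintype.card Γ ∧
    ∀ j : Fin r, g • ω (grp B Z r p.1, j, p.2) • p.2.1 = ω (grp B Z r p.1, j, p.2) • p.2.1)

open Classical in
noncomputable def EvC (B Z : Finset V) (r : ℕ) (p : (B → Lbl B Z r) × Idx B r × Lbl B Z r) :
    Finset (Idx B r → Γ) :=
  univ.filter (fun ω => ∃ g : Γ, (∀ b' : B, g • b'.1 = pt B Z r ω (p.1 b')) ∧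
    p.2.1.1 = grp B Z r p.1 ∧ p.2.2 ≠ Sum.inr p.2.1 ∧
    g • ω p.2.1 • p.2.1.2.2.1 = pt B Z r ω p.2.2)

theorem card_EvA (B Z : Finset V) (r : ℕ) (hB : B.Nonempty)
    (hbase : ∀ g : Γ, (∀ b ∈ B, g • b = b) → Ker B g)
    (p : (B → Lbl B Z r) × B) :
    B.card ^ r * (EvA (Γ := Γ) B Z r p).card ≤
      (B.card - 1) ^ r * Fintype.card Γ ^ Fintype.card (Idx B r) := by
  classical
  obtain ⟨φ, b⟩ := p
  set I0 : Finset (Idx B r) := univ.image (fun j : Fin r => (grp B Z r φ, j, b)) with hI0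
  have hI0c : I0.card = r := by
    rw [hI0, Finset.card_image_of_injective]
    · simp
    · intro i j hij
      simpa using hij
  have key := fiber_pi (EvA (Γ := Γ) B Z r (φ, b)) I0 B.card (B.card - 1) hB.card_pos ?_
  · rwa [hI0c] at key
  intro ω hω
  rw [EvA, Finset.mem_filter] at hω
  obtain ⟨-, g, hg1, hg2, hg3⟩ := hω
  refine ⟨univ.filter (fun γ : Γ => g • γ • b.1 = γ • b.1), hg2, ?_⟩
  intro ω' hω' hoff i hi
  rw [EvA, Finset.mem_filter] at hω'
  obtain ⟨-, g', hg1', hg2', hg3'⟩ := hω'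
  rw [hI0, Finset.mem_image] at hi
  obtain ⟨j, -, rfl⟩ := hi
  rw [Finset.mem_filter]
  refine ⟨Finset.mem_univ _, ?_⟩
  have hoff' : ∀ i : Idx B r, i.1 ≠ grp B Z r φ → ω' i = ω i := by
    intro i hi
    apply hoff
    intro hmem
    rw [hI0, Finset.mem_image] at hmem
    obtain ⟨j, -, rfl⟩ := hmem
    exact hi rfl
  have heq : ∀ b ∈ B, g • b = g' • b := by
    intro b' hb'
    have h1 := hg1 ⟨b', hb'⟩
    have h2 := hg1' ⟨b', hb'⟩
    simp only at h1 h2
    rw [h1, h2, pt_congr B Z r φ ω ω' hoff']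
  rw [Ker.eq hbase heq _ _ b.2]
  exact hg3' j

theorem card_EvC (B Z : Finset V) (r Φ : ℕ) (hΦ : 0 < Φ)
    (hbase : ∀ g : Γ, (∀ b ∈ B, g • b = b) → Ker B g)
    (horb : ∀ b ∈ B, Φ * (univ.filter (fun γ : Γ => γ • b = b)).card ≤ Fintype.card Γ)
    (p : (B → Lbl B Z r) × Idx B r × Lbl B Z r) :
    Φ * (EvC (Γ := Γ) B Z r p).card ≤ Fintype.card Γ ^ Fintype.card (Idx B r) := by
  classical
  obtain ⟨φ, τ, κ⟩ := p
  have key := fiber_pi (EvC (Γ := Γ) B Z r (φ, τ, κ)) {τ} Φ 1 hΦ ?_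
  · simpa using key
  intro ω hω
  rw [EvC, Finset.mem_filter] at hω
  obtain ⟨-, g, hg1, hg2, hg3, hg4⟩ := hω
  simp only at hg1 hg2 hg3 hg4
  refine ⟨univ.filter (fun γ : Γ => γ • τ.2.2.1 = g⁻¹ • pt B Z r ω κ), ?_, ?_⟩
  · rw [one_mul]
    exact (Nat.mul_le_mul_left _ (coll _ _)).trans (horb _ τ.2.2.2)
  intro ω' hω' hoff i hi
  rw [EvC, Finset.mem_filter] at hω'
  obtain ⟨-, g', hg1', hg2', hg3', hg4'⟩ := hω'
  simp only at hg1' hg2' hg3' hg4'
  rw [Finset.mem_singleton] at hi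
  subst hi
  rw [Finset.mem_filter]
  refine ⟨Finset.mem_univ _, ?_⟩
  have hoff' : ∀ j : Idx B r, j.1 ≠ grp B Z r φ → ω' j = ω j := by
    intro j hj
    apply hoff
    intro hmem
    rw [Finset.mem_singleton] at hmem
    subst hmem
    exact hj hg2
  have heq : ∀ b ∈ B, g • b = g' • b := by
    intro b' hb'
    have h1 := hg1 ⟨b', hb'⟩
    have h2 := hg1' ⟨b', hb'⟩
    simp only at h1 h2
    rw [h1, h2, pt_congr B Z r φ ω ω' hoff']
  have hpt : pt B Z r ω' κ = pt B Z r ω κ := by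
    rcases hκ : κ with z | k
    · rfl
    · have : k ≠ i := by
        intro h
        apply hg3
        rw [hκ, h]
      simp only [pt]
      rw [hoff k (by simpa using this)]
  rw [eq_inv_smul_iff, Ker.eq hbase heq _ _ i.2.2.2, hg4', hpt]

theorem core_count (B Z : Finset V) (hBZ : B ⊆ Z) (hB : B.Nonempty)
    (hbase : ∀ g : Γ, (∀ b ∈ B, g • b = b) → Ker B g)
    (r Φ : ℕ)
    (horb : ∀ b ∈ B, Φ * (univ.filter (fun γ : Γ => γ • b = b)).card ≤ Fintype.card Γ)
    (hr : 2 * ((Z.card + (B.card + 1) * (r * B.card)) ^ B.card * B.card * (B.card - 1) ^ r) <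
      B.card ^ r)
    (hΦ : 2 * (Z.card + (B.card + 1) * (r * B.card)) ^ (B.card + 2) < Φ) :
    ∃ E : Finset V, E.card ≤ (B.card + 1) * (r * B.card) ∧
      (∀ e ∈ E, ∃ γ : Γ, ∃ b ∈ B, e = γ • b) ∧
      ∀ g : Γ, (∀ x ∈ Z ∪ E, g • x ∈ Z ∪ E) → Ker B g := by
  classical
  by_contra hcon
  push Not at hcon
  set n := B.card with hn
  have hnpos : 0 < n := hB.card_pos
  set W := Z.card + (n + 1) * (r * n) with hW
  set N := Fintype.card Γ with hN
  have hNpos : 0 < N := Fintype.card_pos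
  have hcI : Fintype.card (Idx B r) = (n + 1) * (r * n) := by
    simp [Idx, hn]
  have hcL : Fintype.card (Lbl B Z r) = W := by
    rw [Fintype.card_sum, hcI, Fintype.card_coe]
  have hcB : Fintype.card B = n := Fintype.card_coe B
  -- every ω is bad
  have hbad : ∀ ω : Idx B r → Γ, ∃ g : Γ, ¬ Ker B g ∧
      ∀ κ : Lbl B Z r, ∃ κ' : Lbl B Z r, g • pt B Z r ω κ = pt B Z r ω κ' := by
    intro ω
    obtain ⟨g, hg1, hg2⟩ := hcon (univ.image (fun i : Idx B r => ω i • i.2.2.1))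
      (Finset.card_image_le.trans (by rw [Finset.card_univ, hcI])) (by
        intro e he
        rw [Finset.mem_image] at he
        obtain ⟨i, -, rfl⟩ := he
        exact ⟨ω i, i.2.2.1, i.2.2.2, rfl⟩)
    refine ⟨g, hg2, ?_⟩
    have hmem : ∀ x, x ∈ Z ∪ univ.image (fun i : Idx B r => ω i • i.2.2.1) ↔
        ∃ κ : Lbl B Z r, x = pt B Z r ω κ := by
      intro x
      rw [Finset.mem_union, Finset.mem_image]
      constructor
      · rintro (hx | ⟨i, -, rfl⟩)
        · exact ⟨Sum.inl ⟨x, hx⟩, rfl⟩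
        · exact ⟨Sum.inr i, rfl⟩
      · rintro ⟨z | i, rfl⟩
        · left; exact z.2
        · right; exact ⟨i, Finset.mem_univ _, rfl⟩
    intro κ
    exact (hmem _).1 (hg1 _ ((hmem _).2 ⟨κ, rfl⟩))
  have hcover : (univ : Finset (Idx B r → Γ)) ⊆
      (univ.biUnion (fun p => EvA (Γ := Γ) B Z r p)) ∪
      (univ.biUnion (fun p => EvC (Γ := Γ) B Z r p)) := by
    intro ω _
    obtain ⟨g, hg, hg2⟩ := hbad ω
    have h1 : ∀ b : B, ∃ κ : Lbl B Z r, g • b.1 = pt B Z r ω κ := by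
      intro b
      exact hg2 (Sum.inl ⟨b.1, hBZ b.2⟩)
    choose φ hφ using h1
    rw [Finset.mem_union, Finset.mem_biUnion, Finset.mem_biUnion]
    by_cases hC : ∃ (τ : Idx B r) (κ : Lbl B Z r), τ.1 = grp B Z r φ ∧ κ ≠ Sum.inr τ ∧
        g • ω τ • τ.2.2.1 = pt B Z r ω κ
    · right
      obtain ⟨τ, κ, h1, h2, h3⟩ := hC
      refine ⟨(φ, τ, κ), Finset.mem_univ _, ?_⟩
      rw [EvC, Finset.mem_filter]
      exact ⟨Finset.mem_univ _, g, hφ, h1, h2, h3⟩
    · left
      push Not at hC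
      obtain ⟨b, hb, hb2⟩ := exists_moved B hbase g hg
      refine ⟨(φ, ⟨b, hb⟩), Finset.mem_univ _, ?_⟩
      rw [EvA, Finset.mem_filter]
      refine ⟨Finset.mem_univ _, g, hφ, hb2, ?_⟩
      intro j
      obtain ⟨κ, hκ⟩ := hg2 (Sum.inr (grp B Z r φ, j, ⟨b, hb⟩))
      by_cases hk : κ = Sum.inr (grp B Z r φ, j, ⟨b, hb⟩)
      · rw [hk] at hκ
        exact hκ
      · exact absurd hκ (hC _ _ rfl hk)
  have hcard : N ^ Fintype.card (Idx B r) ≤
      ∑ p, (EvA (Γ := Γ) B Z r p).card + ∑ p, (EvC (Γ := Γ) B Z r p).card := by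
    calc N ^ Fintype.card (Idx B r) = (univ : Finset (Idx B r → Γ)).card := by
          rw [Finset.card_univ, Fintype.card_fun]
      _ ≤ _ := Finset.card_le_card hcover
      _ ≤ _ := Finset.card_union_le _ _
      _ ≤ _ := Nat.add_le_add Finset.card_biUnion_le Finset.card_biUnion_le
  have hA : n ^ r * ∑ p, (EvA (Γ := Γ) B Z r p).card ≤
      (W ^ n * n * (n - 1) ^ r) * N ^ Fintype.card (Idx B r) := by
    rw [Finset.mul_sum]
    calc ∑ p, n ^ r * (EvA (Γ := Γ) B Z r p).card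
        ≤ ∑ p : (B → Lbl B Z r) × B, (n - 1) ^ r * N ^ Fintype.card (Idx B r) :=
          Finset.sum_le_sum (fun p _ => card_EvA B Z r hB hbase p)
      _ = (W ^ n * n * (n - 1) ^ r) * N ^ Fintype.card (Idx B r) := by
          rw [Finset.sum_const, Finset.card_univ, Fintype.card_prod, Fintype.card_fun, hcL,
            hcB, smul_eq_mul]
          ring
  have hΦpos : 0 < Φ := by omega
  have hC : Φ * ∑ p, (EvC (Γ := Γ) B Z r p).card ≤
      W ^ (n + 2) * N ^ Fintype.card (Idx B r) := by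
    rw [Finset.mul_sum]
    calc ∑ p, Φ * (EvC (Γ := Γ) B Z r p).card
        ≤ ∑ p : (B → Lbl B Z r) × Idx B r × Lbl B Z r, N ^ Fintype.card (Idx B r) :=
          Finset.sum_le_sum (fun p _ => card_EvC B Z r Φ hΦpos hbase horb p)
      _ = (W ^ n * (Fintype.card (Idx B r) * W)) * N ^ Fintype.card (Idx B r) := by
          rw [Finset.sum_const, Finset.card_univ, Fintype.card_prod, Fintype.card_fun,
            Fintype.card_prod, hcL, hcB, smul_eq_mul]
      _ ≤ (W ^ n * (W * W)) * N ^ Fintype.card (Idx B r) := by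
          apply Nat.mul_le_mul_right
          apply Nat.mul_le_mul_left
          apply Nat.mul_le_mul_right
          rw [hcI, hW]
          exact Nat.le_add_left _ _
      _ = W ^ (n + 2) * N ^ Fintype.card (Idx B r) := by ring
  set T := N ^ Fintype.card (Idx B r) with hT
  have hTpos : 0 < T := pow_pos hNpos _
  set SA := ∑ p, (EvA (Γ := Γ) B Z r p).card
  set SC := ∑ p, (EvC (Γ := Γ) B Z r p).card
  have hnr : 0 < n ^ r := pow_pos hnpos _
  have e1 : 2 * SA < T := by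
    have : n ^ r * (2 * SA) < n ^ r * T := by
      calc n ^ r * (2 * SA) = 2 * (n ^ r * SA) := by ring
        _ ≤ 2 * ((W ^ n * n * (n - 1) ^ r) * T) := Nat.mul_le_mul_left _ hA
        _ = (2 * (W ^ n * n * (n - 1) ^ r)) * T := by ring
        _ < n ^ r * T := Nat.mul_lt_mul_of_pos_right hr hTpos
    exact Nat.lt_of_mul_lt_mul_left this
  have e2 : 2 * SC < T := by
    have : Φ * (2 * SC) < Φ * T := by
      calc Φ * (2 * SC) = 2 * (Φ * SC) := by ring
        _ ≤ 2 * (W ^ (n + 2) * T) := Nat.mul_le_mul_left _ hC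
        _ = (2 * W ^ (n + 2)) * T := by ring
        _ < Φ * T := Nat.mul_lt_mul_of_pos_right hΦ hTpos
    exact Nat.lt_of_mul_lt_mul_left this
  omega

end

end Q127.Cost
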