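import Mathlib

namespace Q127.Cost

open Finset

/-- fibre lemma: a set of functions whose fibres over the coordinates outside `I0` lie in
small boxes is small. -/
theorem fiber_pi {I Γ : Type*} [Fintype I] [DecidableEq I] [Fintype Γ] [DecidableEq Γ]
    (A : Finset (I → Γ)) (I0 : Finset I) (n m : ℕ) (hn : 0 < n)
    (h : ∀ ω ∈ A, ∃ F : Finset Γ, n * F.card ≤ m * Fintype.card Γ ∧
      ∀ ω' ∈ A, (∀ i, i ∉ I0 → ω' i = ω i) → ∀ i ∈ I0, ω' i ∈ F) :
    n ^ I0.card * A.card ≤ m ^ I0.card * Fintype.card Γ ^ Fintype.card I := by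
  classical
  set N := Fintype.card Γ with hN
  set c := m * N / n with hc
  let f : (I → Γ) → ({i // i ∉ I0} → Γ) := fun ω i => ω i.1
  have h1 : A.card ≤ c ^ I0.card * (A.image f).card := by
    apply Finset.card_le_mul_card_image
    intro a ha
    obtain ⟨ω0, hω0, rfl⟩ := Finset.mem_image.1 ha
    obtain ⟨F, hF, hF2⟩ := h ω0 hω0
    have hFc : F.card ≤ c := by
      rw [hc, Nat.le_div_iff_mul_le hn]
      linarith [mul_comm F.card n]
    have hsub : A.filter (fun x => f x = f ω0) ⊆
        Fintype.piFinset (fun i => if i ∈ I0 then F else {ω0 i}) := by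
      intro x hx
      rw [Finset.mem_filter] at hx
      rw [Fintype.mem_piFinset]
      intro i
      by_cases hi : i ∈ I0
      · rw [if_pos hi]
        apply hF2 x hx.1 _ i hi
        intro j hj
        exact congrFun hx.2 ⟨j, hj⟩
      · rw [if_neg hi]
        rw [Finset.mem_singleton]
        exact congrFun hx.2 ⟨i, hi⟩
    calc (A.filter (fun x => f x = f ω0)).card
        ≤ (Fintype.piFinset (fun i => if i ∈ I0 then F else {ω0 i})).card :=
          Finset.card_le_card hsub
      _ = ∏ i, (if i ∈ I0 then F else {ω0 i}).card := Fintype.card_piFinset _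
      _ = ∏ i, (if i ∈ I0 then F.card else 1) := by
          apply Finset.prod_congr rfl
          intro i _
          split_ifs <;> simp
      _ = F.card ^ I0.card := by
          rw [Finset.prod_ite]
          simp
      _ ≤ c ^ I0.card := Nat.pow_le_pow_left hFc _
  have h2 : (A.image f).card ≤ N ^ (Fintype.card I - I0.card) := by
    calc (A.image f).card ≤ Fintype.card ({i // i ∉ I0} → Γ) := Finset.card_le_univ _
      _ = N ^ (Fintype.card I - I0.card) := by
          rw [Fintype.card_fun]
          congr 1
          rw [Fintype.card_subtype_compl]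
          simp
  have h3 : I0.card ≤ Fintype.card I := Finset.card_le_univ _
  calc n ^ I0.card * A.card ≤ n ^ I0.card * (c ^ I0.card * N ^ (Fintype.card I - I0.card)) := by
        apply Nat.mul_le_mul_left
        exact h1.trans (Nat.mul_le_mul_left _ h2)
    _ = (n * c) ^ I0.card * N ^ (Fintype.card I - I0.card) := by
        rw [mul_pow]; ring
    _ ≤ (m * N) ^ I0.card * N ^ (Fintype.card I - I0.card) := by
        apply Nat.mul_le_mul_right
        apply Nat.pow_le_pow_left
        exact Nat.mul_div_le _ _
    _ = m ^ I0.card * N ^ Fintype.card I := by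
        rw [mul_pow, mul_assoc, ← pow_add]
        congr 2
        omega

/-- translates of the stabiliser. -/
theorem coll {Γ V : Type*} [Group Γ] [MulAction Γ V] [Fintype Γ] [DecidableEq Γ] [DecidableEq V]
    (b y : V) :
    (univ.filter (fun γ : Γ => γ • b = y)).card ≤ (univ.filter (fun γ : Γ => γ • b = b)).card := by
  classical
  by_cases h : ∃ γ0 : Γ, γ0 • b = y
  · obtain ⟨γ0, h0⟩ := h
    apply Finset.card_le_card_of_injOn (fun γ => γ0⁻¹ * γ)
    · intro γ hγ
      simp only [Finset.coe_filter, Finset.mem_univ, true_and, Set.mem_ofPred_eq] at hγ ⊢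
      rw [mul_smul, hγ, ← h0, inv_smul_smul]
    · intro a _ b _ hab
      exact mul_left_cancel hab
  · have : univ.filter (fun γ : Γ => γ • b = y) = ∅ := by
      apply Finset.filter_false_of_mem
      intro γ _ hγ
      exact h ⟨γ, hγ⟩
    rw [this]
    simp

end Q127.Cost
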