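import Pool.Agent.Q127.Cost.Unif

namespace Q127.Cost

open Finset

universe u

/-- `S` is asymmetric: only the identity maps `S` into itself. -/
def Asym (Γ : Type*) {V : Type*} [Group Γ] [MulAction Γ V] (S : Finset V) : Prop :=
  ∀ g : Γ, (∀ x ∈ S, g • x ∈ S) → g = 1

/-- the orbit as a finset -/
def orb (Γ : Type*) {V : Type*} [Group Γ] [Fintype Γ] [MulAction Γ V] [DecidableEq V] (b : V) :
    Finset V := univ.image (fun γ : Γ => γ • b)

theorem orb_mul_stab {Γ V : Type*} [Group Γ] [Fintype Γ] [DecidableEq Γ] [MulAction Γ V]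
    [DecidableEq V] (b : V) :
    (orb Γ b).card * (univ.filter (fun γ : Γ => γ • b = b)).card ≤ Fintype.card Γ := by
  classical
  rw [mul_comm]
  have := Finset.mul_card_image_le_card (f := fun γ : Γ => γ • b) (s := (univ : Finset Γ))
    (n := (univ.filter (fun γ : Γ => γ • b = b)).card) ?_
  · exact this
  intro y hy
  rw [Finset.mem_image] at hy
  obtain ⟨γ0, -, rfl⟩ := hy
  apply Finset.card_le_card_of_injOn (fun γ => γ0 * γ)
  · intro γ hγ
    simp only [Finset.coe_filter, Finset.mem_univ, true_and, Set.mem_ofPred_eq] at hγ ⊢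
    rw [mul_smul, hγ]
  · intro a _ b _ hab
    exact mul_left_cancel hab

theorem step (d K : ℕ) : ∃ Φ C : ℕ, ∀ (Γ V : Type u) [Group Γ] [Fintype Γ]
    [DecidableEq Γ] [MulAction Γ V] [DecidableEq V] (B D : Finset V), B.card ≤ d →
    (∀ g : Γ, (∀ b ∈ B, g • b = b) → g = 1) → Asym Γ D →
    (∀ b ∈ B, (orb Γ b).card ≤ K ∨ Φ ≤ (orb Γ b).card) →
    ∃ S : Finset V, S.card ≤ C ∧ Asym Γ S := by
  classical
  obtain ⟨Φ, C0, hcore⟩ := core_unif.{u} (d + (K + 1) ^ d) ((K + 1) ^ d + (d + (K + 1) ^ d))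
  refine ⟨Φ, ((K + 1) ^ d + (d + (K + 1) ^ d)) + C0, ?_⟩
  intro Γ V _ _ _ _ _ B D hBd hbase hD hgap
  rcases isEmpty_or_nonempty V with hV | hV
  · refine ⟨D, ?_, hD⟩
    rw [Finset.eq_empty_of_isEmpty D]
    simp
  set Bl := B.filter (fun b => K < (orb Γ b).card) with hBl
  have hBlB : Bl ⊆ B := Finset.filter_subset _ _
  set Γ1 : Finset Γ := univ.filter (fun g : Γ => ∀ b ∈ Bl, g • b = b) with hΓ1
  -- size of Γ1
  have hΓ1c : Γ1.card ≤ (K + 1) ^ d := by
    have h1 : Γ1.card ≤ (Fintype.piFinset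
        (fun b : B => if b.1 ∈ Bl then ({b.1} : Finset V) else orb Γ b.1)).card := by
      apply Finset.card_le_card_of_injOn (fun (g : Γ) (b : B) => g • b.1)
      · intro g hg
        rw [Finset.mem_coe, hΓ1, Finset.mem_filter] at hg
        rw [Finset.mem_coe, Fintype.mem_piFinset]
        intro b
        by_cases hb : b.1 ∈ Bl
        · rw [if_pos hb, Finset.mem_singleton]
          exact hg.2 _ hb
        · rw [if_neg hb, orb, Finset.mem_image]
          exact ⟨g, Finset.mem_univ _, rfl⟩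
      · intro g _ g' _ hgg
        have : ∀ b ∈ B, (g⁻¹ * g') • b = b := by
          intro b hb
          have := congrFun hgg ⟨b, hb⟩
          simp only at this
          rw [mul_smul, ← this, inv_smul_smul]
        have := hbase _ this
        exact (inv_mul_eq_one.1 this)
    refine h1.trans ?_
    rw [Fintype.card_piFinset]
    calc ∏ b : B, (if b.1 ∈ Bl then ({b.1} : Finset V) else orb Γ b.1).card
        ≤ ∏ b : B, (K + 1) := by
          apply Finset.prod_le_prod'
          intro b _
          by_cases hb : b.1 ∈ Bl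
          · rw [if_pos hb, Finset.card_singleton]
            omega
          · rw [if_neg hb]
            have : ¬ (K < (orb Γ b.1).card) := by
              intro h
              exact hb (Finset.mem_filter.2 ⟨b.2, h⟩)
            omega
      _ = (K + 1) ^ B.card := by simp
      _ ≤ (K + 1) ^ d := Nat.pow_le_pow_right (by omega) hBd
  -- the L predicate
  let inL : V → Prop := fun v => ∃ γ : Γ, ∃ b ∈ Bl, v = γ • b
  have hinL : ∀ (g : Γ) (v : V), inL v → inL (g • v) := by
    rintro g v ⟨γ, b, hb, rfl⟩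
    exact ⟨g * γ, b, hb, by rw [mul_smul]⟩
  have hKerL : ∀ (g : Γ), Ker Bl g → ∀ v, inL v → g • v = v := by
    rintro g hg v ⟨γ, b, hb, rfl⟩
    exact hg γ b hb
  have hy : ∀ h : Γ, ∃ y : V, ¬ Ker Bl h → inL y ∧ h • y ≠ y := by
    intro h
    by_cases hk : Ker Bl h
    · exact ⟨hV.some, fun hn => absurd hk hn⟩
    · have hk' := hk
      unfold Ker at hk'
      push Not at hk'
      obtain ⟨γ, b, hb, hne⟩ := hk'
      exact ⟨γ • b, fun _ => ⟨⟨γ, b, hb, rfl⟩, hne⟩⟩
  choose y hy using hy
  have hx : ∀ g : Γ, ∃ x : V, g ≠ 1 → x ∈ D ∧ g • x ∉ D := by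
    intro g
    by_cases hg : g = 1
    · exact ⟨hV.some, fun hn => absurd hg hn⟩
    · have : ¬ ∀ x ∈ D, g • x ∈ D := fun h => hg (hD g h)
      push Not at this
      obtain ⟨x, hx1, hx2⟩ := this
      exact ⟨x, fun _ => ⟨hx1, hx2⟩⟩
  choose x hx using hx
  set Y := (Γ1.filter (fun h => ¬ Ker Bl h)).image y with hY
  set B' := Bl ∪ Y with hB'
  set X := (Γ1.filter (fun g => g ≠ 1)).image x with hX
  have hYc : Y.card ≤ (K + 1) ^ d :=
    Finset.card_image_le.trans ((Finset.card_filter_le _ _).trans hΓ1c)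
  have hXc : X.card ≤ (K + 1) ^ d :=
    Finset.card_image_le.trans ((Finset.card_filter_le _ _).trans hΓ1c)
  have hB'c : B'.card ≤ d + (K + 1) ^ d := by
    refine (Finset.card_union_le _ _).trans ?_
    exact Nat.add_le_add ((Finset.card_le_card hBlB).trans hBd) hYc
  have hXD : ∀ v ∈ X, v ∈ D := by
    intro v hv
    rw [hX, Finset.mem_image] at hv
    obtain ⟨g, hg, rfl⟩ := hv
    rw [Finset.mem_filter] at hg
    exact (hx g hg.2).1
  have hB'L : ∀ v ∈ B', inL v := by
    intro v hv
    rw [hB', Finset.mem_union] at hv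
    rcases hv with hv | hv
    · exact ⟨1, v, hv, by simp⟩
    · rw [hY, Finset.mem_image] at hv
      obtain ⟨g, hg, rfl⟩ := hv
      rw [Finset.mem_filter] at hg
      exact (hy g hg.2).1
  have hKer1 : ∀ g : Γ, Ker B' g → Ker Bl g := by
    intro g hg γ b hb
    exact hg γ b (Finset.mem_union_left _ hb)
  have hKer2 : ∀ g : Γ, Ker Bl g → Ker B' g := by
    intro g hg γ b hb
    exact hKerL g hg _ (hinL γ b (hB'L b hb))
  have hbase' : ∀ g : Γ, (∀ b ∈ B', g • b = b) → Ker B' g := by
    intro g hg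
    apply hKer2
    by_contra hk
    have hg1 : g ∈ Γ1 := by
      rw [hΓ1, Finset.mem_filter]
      exact ⟨Finset.mem_univ _, fun b hb => hg b (Finset.mem_union_left _ hb)⟩
    apply (hy g hk).2
    apply hg
    apply Finset.mem_union_right
    rw [hY, Finset.mem_image]
    exact ⟨g, Finset.mem_filter.2 ⟨hg1, hk⟩, rfl⟩
  have horb : ∀ b ∈ B', Φ * (univ.filter (fun γ : Γ => γ • b = b)).card ≤ Fintype.card Γ := by
    intro b hb
    refine le_trans ?_ (orb_mul_stab (Γ := Γ) b)
    apply Nat.mul_le_mul_right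
    obtain ⟨γ', b0, hb0, rfl⟩ := hB'L b hb
    have h1 : Φ ≤ (orb Γ b0).card := by
      have h2 := (Finset.mem_filter.1 hb0)
      rcases hgap b0 h2.1 with h3 | h3
      · exact absurd h2.2 (by omega)
      · exact h3
    refine h1.trans (Finset.card_le_card ?_)
    intro v hv
    rw [orb, Finset.mem_image] at hv ⊢
    obtain ⟨γ, -, rfl⟩ := hv
    refine ⟨γ * γ'⁻¹, Finset.mem_univ _, ?_⟩
    rw [smul_smul]
    congr 1
    group
  set Z := X.filter inL ∪ B' with hZ
  have hZc : Z.card ≤ (K + 1) ^ d + (d + (K + 1) ^ d) := by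
    refine (Finset.card_union_le _ _).trans ?_
    exact Nat.add_le_add ((Finset.card_filter_le _ _).trans hXc) hB'c
  obtain ⟨E, hE1, hE2, hE3⟩ := hcore Γ V B' Z Finset.subset_union_right hB'c hZc hbase' horb
  have hEL : ∀ v ∈ E, inL v := by
    intro v hv
    obtain ⟨γ, b, hb, rfl⟩ := hE2 v hv
    exact hinL γ b (hB'L b hb)
  refine ⟨X ∪ B' ∪ E, ?_, ?_⟩
  · refine (Finset.card_union_le _ _).trans ?_
    refine Nat.add_le_add ?_ hE1
    refine (Finset.card_union_le _ _).trans ?_
    exact Nat.add_le_add hXc hB'c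
  · intro g hg
    have hstab : ∀ v ∈ Z ∪ E, g • v ∈ Z ∪ E := by
      intro v hv
      have hvL : inL v := by
        rw [Finset.mem_union, hZ, Finset.mem_union, Finset.mem_filter] at hv
        rcases hv with (hv | hv) | hv
        · exact hv.2
        · exact hB'L v hv
        · exact hEL v hv
      have hvS : v ∈ X ∪ B' ∪ E := by
        rw [Finset.mem_union, hZ, Finset.mem_union, Finset.mem_filter] at hv
        rw [Finset.mem_union, Finset.mem_union]
        rcases hv with (hv | hv) | hv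
        · exact Or.inl (Or.inl hv.1)
        · exact Or.inl (Or.inr hv)
        · exact Or.inr hv
      have h1 := hg v hvS
      rw [Finset.mem_union, Finset.mem_union] at h1
      rw [Finset.mem_union, hZ, Finset.mem_union, Finset.mem_filter]
      rcases h1 with (h1 | h1) | h1
      · exact Or.inl (Or.inl ⟨h1, hinL g v hvL⟩)
      · exact Or.inl (Or.inr h1)
      · exact Or.inr h1
    have hk : Ker Bl g := hKer1 g (hE3 g hstab)
    by_contra hne
    have hg1 : g ∈ Γ1 := by
      rw [hΓ1, Finset.mem_filter]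
      refine ⟨Finset.mem_univ _, fun b hb => ?_⟩
      have := hk 1 b hb
      simpa using this
    have hxX : x g ∈ X := by
      rw [hX, Finset.mem_image]
      exact ⟨g, Finset.mem_filter.2 ⟨hg1, hne⟩, rfl⟩
    obtain ⟨hx1, hx2⟩ := hx g hne
    have h2 := hg (x g) (Finset.mem_union_left _ (Finset.mem_union_left _ hxX))
    have hL' : inL (g • x g) → False := by
      intro hL
      have h3 : inL (x g) := by
        have := hinL g⁻¹ _ hL
        rwa [inv_smul_smul] at this
      apply hx2
      rw [hKerL g hk _ h3]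
      exact hx1
    rw [Finset.mem_union, Finset.mem_union] at h2
    rcases h2 with (h2 | h2) | h2
    · exact hx2 (hXD _ h2)
    · exact hL' (hB'L _ h2)
    · exact hL' (hEL _ h2)

/-- induction on the number of base points with large orbit -/
theorem bounded_aux (d m : ℕ) : ∀ K : ℕ, ∃ C : ℕ, ∀ (Γ V : Type u) [Group Γ] [Fintype Γ]
    [DecidableEq Γ] [MulAction Γ V] [DecidableEq V] (B D : Finset V), B.card ≤ d →
    (∀ g : Γ, (∀ b ∈ B, g • b = b) → g = 1) → Asym Γ D →
    (B.filter (fun b => K < (orb Γ b).card)).card ≤ m →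
    ∃ S : Finset V, S.card ≤ C ∧ Asym Γ S := by
  classical
  induction m with
  | zero =>
    intro K
    obtain ⟨Φ, C, hC⟩ := step.{u} d K
    refine ⟨C, ?_⟩
    intro Γ V _ _ _ _ _ B D hBd hbase hD hm
    apply hC Γ V B D hBd hbase hD
    intro b hb
    left
    by_contra hlt
    have : b ∈ B.filter (fun b => K < (orb Γ b).card) := Finset.mem_filter.2 ⟨hb, by omega⟩
    rw [Finset.card_eq_zero.1 (Nat.le_zero.1 hm)] at this
    simp at this
  | succ m ih =>
    intro K
    obtain ⟨Φ, C, hC⟩ := step.{u} d K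
    obtain ⟨C2, hC2⟩ := ih (max K Φ)
    refine ⟨max C C2, ?_⟩
    intro Γ V _ _ _ _ _ B D hBd hbase hD hm
    by_cases hgap : ∀ b ∈ B, (orb Γ b).card ≤ K ∨ Φ ≤ (orb Γ b).card
    · obtain ⟨S, hS1, hS2⟩ := hC Γ V B D hBd hbase hD hgap
      exact ⟨S, hS1.trans (le_max_left _ _), hS2⟩
    · push Not at hgap
      obtain ⟨b, hb, hb1, hb2⟩ := hgap
      have hlt : (B.filter (fun b => max K Φ < (orb Γ b).card)).card ≤ m := by
        have hss : B.filter (fun b => max K Φ < (orb Γ b).card) ⊂
            B.filter (fun b => K < (orb Γ b).card) := by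
          rw [Finset.ssubset_iff_of_subset]
          · refine ⟨b, Finset.mem_filter.2 ⟨hb, hb1⟩, ?_⟩
            intro h
            have := (Finset.mem_filter.1 h).2
            have h3 := le_max_right K Φ
            omega
          · intro c hc
            rw [Finset.mem_filter] at hc ⊢
            exact ⟨hc.1, lt_of_le_of_lt (le_max_left _ _) hc.2⟩
        have := Finset.card_lt_card hss
        omega
      obtain ⟨S, hS1, hS2⟩ := hC2 Γ V B D hBd hbase hD hlt
      exact ⟨S, hS1.trans (le_max_right _ _), hS2⟩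

/-- a finite group action with a base of size at most `d` and an asymmetric set has an
asymmetric set of size bounded in terms of `d`. -/
theorem bounded (d : ℕ) : ∃ C : ℕ, ∀ (Γ V : Type u) [Group Γ] [Fintype Γ]
    [DecidableEq Γ] [MulAction Γ V] [DecidableEq V] (B D : Finset V), B.card ≤ d →
    (∀ g : Γ, (∀ b ∈ B, g • b = b) → g = 1) → Asym Γ D →
    ∃ S : Finset V, S.card ≤ C ∧ Asym Γ S := by
  obtain ⟨C, hC⟩ := bounded_aux.{u} d d 0
  refine ⟨C, ?_⟩
  intro Γ V _ _ _ _ _ B D hBd hbase hD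
  exact hC Γ V B D hBd hbase hD ((Finset.card_filter_le _ _).trans hBd)

end Q127.Cost
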