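import Pool.Agent.Q127.Cost.Core

namespace Q127.Cost

open Finset

theorem exists_r (n z : ℕ) (hn : 0 < n) :
    ∃ r : ℕ, 2 * ((z + (n + 1) * (r * n)) ^ n * n * (n - 1) ^ r) < n ^ r := by
  have hnR : (0 : ℝ) < n := by exact_mod_cast hn
  set q : ℝ := ((n : ℝ) - 1) / n with hq
  have hn1 : (1 : ℝ) ≤ n := by exact_mod_cast hn
  have hq0 : 0 ≤ q := div_nonneg (by linarith) hnR.le
  have hq1 : |q| < 1 := by
    rw [abs_of_nonneg hq0, hq, div_lt_one hnR]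
    linarith
  have ht := tendsto_pow_const_mul_const_pow_of_abs_lt_one n hq1
  set c : ℝ := (z : ℝ) + (n + 1) * n with hc
  have hc0 : 0 < c := by positivity
  have hε : (0 : ℝ) < 1 / (2 * c ^ n * n) := by positivity
  have hev := (ht.eventually_lt_const hε).and (Filter.eventually_ge_atTop 1)
  obtain ⟨r, hr, hr1⟩ := hev.exists
  refine ⟨r, ?_⟩
  have hrR : (1 : ℝ) ≤ r := by exact_mod_cast hr1
  have h1 : ((z : ℝ) + (n + 1) * (r * n)) ≤ c * r := by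
    rw [hc]
    have : (z : ℝ) * 1 ≤ z * r := mul_le_mul_of_nonneg_left hrR (Nat.cast_nonneg z)
    nlinarith
  have h2 : 2 * (c * r) ^ n * n * ((n : ℝ) - 1) ^ r < (n : ℝ) ^ r := by
    have h3 : (r : ℝ) ^ n * q ^ r * (2 * c ^ n * n) < 1 := by
      rwa [lt_div_iff₀ (by positivity)] at hr
    have h4 : ((n : ℝ) - 1) ^ r = q ^ r * (n : ℝ) ^ r := by
      rw [hq, div_pow, div_mul_cancel₀]
      positivity
    rw [h4, mul_pow]
    calc 2 * (c ^ n * (r : ℝ) ^ n) * n * (q ^ r * (n : ℝ) ^ r)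
        = ((r : ℝ) ^ n * q ^ r * (2 * c ^ n * n)) * (n : ℝ) ^ r := by ring
      _ < 1 * (n : ℝ) ^ r := by
          apply mul_lt_mul_of_pos_right h3
          positivity
      _ = (n : ℝ) ^ r := one_mul _
  have h5 : (2 * (((z : ℝ) + (n + 1) * (r * n)) ^ n * n * ((n : ℝ) - 1) ^ r)) < (n : ℝ) ^ r := by
    refine lt_of_le_of_lt ?_ h2
    have h6 : ((z : ℝ) + (n + 1) * (r * n)) ^ n ≤ (c * r) ^ n :=
      pow_le_pow_left₀ (by positivity) h1 n
    have h7 : (0 : ℝ) ≤ ((n : ℝ) - 1) ^ r := pow_nonneg (by linarith) _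
    calc 2 * (((z : ℝ) + (n + 1) * (r * n)) ^ n * n * ((n : ℝ) - 1) ^ r)
        = ((z : ℝ) + (n + 1) * (r * n)) ^ n * (2 * n * ((n : ℝ) - 1) ^ r) := by ring
      _ ≤ (c * r) ^ n * (2 * n * ((n : ℝ) - 1) ^ r) :=
          mul_le_mul_of_nonneg_right h6 (by positivity)
      _ = 2 * (c * r) ^ n * n * ((n : ℝ) - 1) ^ r := by ring
  have h8 : ((n - 1 : ℕ) : ℝ) = (n : ℝ) - 1 := by
    rw [Nat.cast_sub hn]; simp
  rw [← h8] at h5
  exact_mod_cast h5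

universe u

/-- uniform large orbit lemma -/
theorem core_unif (nm zm : ℕ) : ∃ Φ C : ℕ, ∀ (Γ V : Type u) [Group Γ] [Fintype Γ]
    [DecidableEq Γ] [MulAction Γ V] [DecidableEq V] (B Z : Finset V), B ⊆ Z →
    B.card ≤ nm → Z.card ≤ zm →
    (∀ g : Γ, (∀ b ∈ B, g • b = b) → Ker B g) →
    (∀ b ∈ B, Φ * (univ.filter (fun γ : Γ => γ • b = b)).card ≤ Fintype.card Γ) →
    ∃ E : Finset V, E.card ≤ C ∧
      (∀ e ∈ E, ∃ γ : Γ, ∃ b ∈ B, e = γ • b) ∧
      ∀ g : Γ, (∀ x ∈ Z ∪ E, g • x ∈ Z ∪ E) → Ker B g := by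
  classical
  have hr : ∀ n z : ℕ, ∃ r : ℕ, 0 < n →
      2 * ((z + (n + 1) * (r * n)) ^ n * n * (n - 1) ^ r) < n ^ r := by
    intro n z
    by_cases hn : 0 < n
    · obtain ⟨r, hr⟩ := exists_r n z hn
      exact ⟨r, fun _ => hr⟩
    · exact ⟨0, fun h => absurd h hn⟩
  choose r hr using hr
  let Φ0 : ℕ → ℕ → ℕ := fun n z => 2 * (z + (n + 1) * (r n z * n)) ^ (n + 2) + 1
  let C0 : ℕ → ℕ → ℕ := fun n z => (n + 1) * (r n z * n)
  have hsum : ∀ (F : ℕ → ℕ → ℕ) (n z : ℕ), n ≤ nm → z ≤ zm →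
      F n z ≤ ∑ a ∈ range (nm + 1), ∑ b ∈ range (zm + 1), F a b := by
    intro F n z hn hz
    calc F n z ≤ ∑ b ∈ range (zm + 1), F n b :=
          Finset.single_le_sum (f := fun b => F n b) (fun _ _ => Nat.zero_le _)
            (Finset.mem_range.2 (by omega))
      _ ≤ _ := Finset.single_le_sum (f := fun a => ∑ b ∈ range (zm + 1), F a b)
            (fun _ _ => Nat.zero_le _) (Finset.mem_range.2 (by omega))
  refine ⟨∑ a ∈ range (nm + 1), ∑ b ∈ range (zm + 1), Φ0 a b,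
    ∑ a ∈ range (nm + 1), ∑ b ∈ range (zm + 1), C0 a b, ?_⟩
  intro Γ V _ _ _ _ _ B Z hBZ hBn hZ hbase horb
  rcases Finset.eq_empty_or_nonempty B with rfl | hB
  · refine ⟨∅, by simp, by simp, ?_⟩
    intro g _ γ b hb
    exact absurd hb (by simp)
  · have horb' : ∀ b ∈ B, Φ0 B.card Z.card * (univ.filter (fun γ : Γ => γ • b = b)).card ≤
        Fintype.card Γ := by
      intro b hb
      refine le_trans ?_ (horb b hb)
      exact Nat.mul_le_mul_right _ (hsum Φ0 _ _ hBn hZ)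
    obtain ⟨E, hE1, hE2, hE3⟩ := core_count (Γ := Γ) B Z hBZ hB hbase (r B.card Z.card)
      (Φ0 B.card Z.card) horb' (hr _ _ hB.card_pos) (Nat.lt_succ_self _)
    exact ⟨E, hE1.trans (hsum C0 _ _ hBn hZ), hE2, hE3⟩

end Q127.Cost
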